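import Pool.Agent.X4.HC.Omega

/-! The number of abc triples of bounded radical and polynomial height with many prime factors. -/

set_option autoImplicit false

namespace Pool.Agent.X4.HC

open Finset

/-- the weight `z ^ ω(m) / rad(m)` -/
noncomputable def w (z : ℝ) (m : ℕ) : ℝ := z ^ m.primeFactors.card / (rad m : ℝ)

theorem w_pos {z : ℝ} (hz : 0 < z) (m : ℕ) : 0 < w z m := by
  have h4 : (0 : ℝ) < rad m := by exact_mod_cast rad_pos m
  unfold w
  positivity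

theorem w_mul (z : ℝ) {m n : ℕ} (h : Nat.Coprime m n) : w z (m * n) = w z m * w z n := by
  unfold w
  have h1 : (m * n).primeFactors.card = m.primeFactors.card + n.primeFactors.card := by
    rw [h.primeFactors_mul, Finset.card_union_of_disjoint h.disjoint_primeFactors]
  have h2 : rad (m * n) = rad m * rad n := by
    unfold rad
    rw [h.primeFactors_mul, Finset.prod_union h.disjoint_primeFactors]
  rw [h1, h2, pow_add]
  push_cast
  have h3 : (0 : ℝ) < rad m := by exact_mod_cast rad_pos m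
  have h4 : (0 : ℝ) < rad n := by exact_mod_cast rad_pos n
  field_simp

/-- a real number with `y ≥ 0`, `1 ≤ y ^ 3 * (p * q * r)` -/
theorem one_le_sum {y p q r : ℝ} (hy : 0 ≤ y) (hp : 0 ≤ p) (hq : 0 ≤ q) (hr : 0 ≤ r)
    (h : 1 ≤ y ^ 3 * (p * q * r)) : 1 ≤ y * p + y * q + y * r := by
  by_contra hcon
  rw [not_le] at hcon
  have h1 : 0 ≤ y * p := by positivity
  have h2 : 0 ≤ y * q := by positivity
  have h3 : 0 ≤ y * r := by positivity
  have h4 : y * p < 1 := by linarith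
  have h5 : y * q < 1 := by linarith
  have h6 : y * r < 1 := by linarith
  have h7 : (y * p) * (y * q) ≤ 1 * 1 := mul_le_mul h4.le h5.le h2 (by norm_num)
  have h8 : (y * p) * (y * q) * (y * r) ≤ 1 * (y * r) := by
    apply mul_le_mul_of_nonneg_right _ h3
    linarith
  have h9 : y ^ 3 * (p * q * r) = (y * p) * (y * q) * (y * r) := by ring
  rw [h9] at h
  linarith

theorem card_le {X V z : ℝ} (hX : 1 ≤ X) (hV : 0 < V) (hz : 0 < z) (N : ℕ)
    (S : Finset (ℕ × ℕ)) (hS : ∀ t ∈ S, 0 < t.1 ∧ 0 < t.2 ∧ Nat.Coprime t.1 t.2 ∧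
      t.1 + t.2 ≤ N ∧ (rad (t.1 * t.2 * (t.1 + t.2)) : ℝ) ≤ X ∧
      V ≤ z ^ (t.1 * t.2 * (t.1 + t.2)).primeFactors.card) :
    (S.card : ℝ) ≤ 3 * (X / V) ^ (2 / 3 : ℝ) * (∑ m ∈ Icc 1 N, w z m) ^ 2 := by
  set W : ℝ := ∑ m ∈ Icc 1 N, w z m with hW
  set y : ℝ := (X / V) ^ (2 / 3 : ℝ) with hy
  have hXV : 0 < X / V := by positivity
  have hy0 : 0 < y := by positivity
  have hy3 : y ^ 3 = (X / V) ^ 2 := by
    rw [hy, ← Real.rpow_natCast, ← Real.rpow_mul hXV.le]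
    norm_num
  -- pointwise
  have key : ∀ t ∈ S, (1 : ℝ) ≤ y * (w z t.1 * w z t.2) + y * (w z t.1 * w z (t.1 + t.2)) +
      y * (w z t.2 * w z (t.1 + t.2)) := by
    intro t ht
    obtain ⟨h1, h2, h3, h4, h5, h6⟩ := hS t ht
    have hc : Nat.Coprime (t.1 * t.2) (t.1 + t.2) := by
      apply Nat.Coprime.mul_left
      · rw [Nat.coprime_self_add_right]
        exact h3
      · rw [Nat.coprime_add_self_right]
        exact h3.symm
    have h7 : w z (t.1 * t.2 * (t.1 + t.2)) = w z t.1 * w z t.2 * w z (t.1 + t.2) := by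
      rw [w_mul z hc, w_mul z h3]
    have hw1 := w_pos hz t.1
    have hw2 := w_pos hz t.2
    have hw3 := w_pos hz (t.1 + t.2)
    apply one_le_sum hy0.le (by positivity) (by positivity) (by positivity)
    have h8 : V / X ≤ w z (t.1 * t.2 * (t.1 + t.2)) := by
      unfold w
      have hr : (0 : ℝ) < rad (t.1 * t.2 * (t.1 + t.2)) := by exact_mod_cast rad_pos _
      rw [div_le_div_iff₀ (by linarith) hr]
      have hzz : 0 < z ^ (t.1 * t.2 * (t.1 + t.2)).primeFactors.card := by positivity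
      exact mul_le_mul h6 h5 hr.le hzz.le
    rw [h7] at h8
    have h9 : y ^ 3 * (w z t.1 * w z t.2 * (w z t.1 * w z (t.1 + t.2)) *
        (w z t.2 * w z (t.1 + t.2))) =
        ((X / V) * (w z t.1 * w z t.2 * w z (t.1 + t.2))) ^ 2 := by
      rw [hy3]
      ring
    rw [h9]
    have h10 : 1 ≤ (X / V) * (w z t.1 * w z t.2 * w z (t.1 + t.2)) := by
      calc (1 : ℝ) = (X / V) * (V / X) := by field_simp
        _ ≤ _ := by gcongr
    nlinarith
  have hinj : ∀ (f : ℕ × ℕ → ℕ × ℕ), (∀ t ∈ S, f t ∈ Icc 1 N ×ˢ Icc 1 N) →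
      (∀ s ∈ S, ∀ t ∈ S, f s = f t → s = t) →
      ∑ t ∈ S, y * (w z (f t).1 * w z (f t).2) ≤ y * W ^ 2 := by
    intro f hf1 hf2
    rw [← Finset.mul_sum]
    refine mul_le_mul_of_nonneg_left ?_ hy0.le
    rw [hW, sq, Finset.sum_mul_sum, ← Finset.sum_product']
    have hinj' : Set.InjOn f S := fun s hs t ht h => hf2 s hs t ht h
    rw [← Finset.sum_image (f := fun p : ℕ × ℕ => w z p.1 * w z p.2) hinj']
    refine Finset.sum_le_sum_of_subset_of_nonneg ?_ ?_
    · intro p hp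
      rw [Finset.mem_image] at hp
      obtain ⟨t, ht, rfl⟩ := hp
      exact hf1 t ht
    · intro p _ _
      have := w_pos hz p.1
      have := w_pos hz p.2
      positivity
  have h1 := hinj (fun t => (t.1, t.2)) (fun t ht => by
    obtain ⟨h1, h2, h3, h4, -⟩ := hS t ht
    simp only [mem_product, mem_Icc]
    omega) (fun s _ t _ h => h)
  have h2 := hinj (fun t => (t.1, t.1 + t.2)) (fun t ht => by
    obtain ⟨h1, h2, h3, h4, -⟩ := hS t ht
    simp only [mem_product, mem_Icc]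
    omega) (fun s _ t _ h => by
      rw [Prod.mk.injEq] at h
      ext
      · exact h.1
      · omega)
  have h3 := hinj (fun t => (t.2, t.1 + t.2)) (fun t ht => by
    obtain ⟨h1, h2, h3, h4, -⟩ := hS t ht
    simp only [mem_product, mem_Icc]
    omega) (fun s _ t _ h => by
      rw [Prod.mk.injEq] at h
      ext
      · omega
      · exact h.1)
  calc (S.card : ℝ) = ∑ t ∈ S, (1 : ℝ) := by simp
    _ ≤ ∑ t ∈ S, (y * (w z t.1 * w z t.2) + y * (w z t.1 * w z (t.1 + t.2)) +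
      y * (w z t.2 * w z (t.1 + t.2))) := Finset.sum_le_sum key
    _ = ∑ t ∈ S, y * (w z t.1 * w z t.2) + ∑ t ∈ S, y * (w z t.1 * w z (t.1 + t.2)) +
      ∑ t ∈ S, y * (w z t.2 * w z (t.1 + t.2)) := by
        rw [Finset.sum_add_distrib, Finset.sum_add_distrib]
    _ ≤ y * W ^ 2 + y * W ^ 2 + y * W ^ 2 := add_le_add (add_le_add h1 h2) h3
    _ = _ := by ring

/-- `exp (B √t) ≤ C exp (ε t)` -/
theorem exp_sqrt_le {B ε : ℝ} (hε : 0 < ε) : ∃ C : ℝ, 0 < C ∧ ∀ t : ℝ, 0 ≤ t →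
    Real.exp (B * √t) ≤ C * Real.exp (ε * t) := by
  refine ⟨Real.exp (B ^ 2 / (4 * ε)), Real.exp_pos _, fun t ht => ?_⟩
  rw [← Real.exp_add]
  apply Real.exp_le_exp.2
  have h1 : √t ^ 2 = t := Real.sq_sqrt ht
  have h2 : 0 ≤ (B / (2 * √ε) - √ε * √t) ^ 2 := sq_nonneg _
  have h3 : √ε ^ 2 = ε := Real.sq_sqrt hε.le
  have h4 : 0 < √ε := Real.sqrt_pos.2 hε
  have h5 : (B / (2 * √ε) - √ε * √t) ^ 2 = B ^ 2 / (4 * √ε ^ 2) - B * √t + √ε ^ 2 * √t ^ 2 := by
    field_simp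
    ring
  rw [h5, h1, h3] at h2
  linarith

/-- **Triples with many prime factors.** -/
theorem many {A η : ℝ} (hA : 0 < A) (hη : 0 < η) : ∃ ν C : ℝ, 0 < ν ∧ 0 < C ∧
    ∀ X : ℝ, 3 ≤ X → ∀ S : Finset (ℕ × ℕ),
      (∀ t ∈ S, 0 < t.1 ∧ 0 < t.2 ∧ Nat.Coprime t.1 t.2 ∧ ((t.1 + t.2 : ℕ) : ℝ) ≤ X ^ A ∧
        (rad (t.1 * t.2 * (t.1 + t.2)) : ℝ) ≤ X ∧
        η * Real.log X ≤
          (t.1 * t.2 * (t.1 + t.2)).primeFactors.card * Real.log (Real.log X)) →
      (S.card : ℝ) ≤ C * X ^ (2 / 3 - ν) := by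
  set δ : ℝ := η / (24 * A) with hδ
  have hδ0 : 0 < δ := by positivity
  obtain ⟨C₀, hC₀, hsum⟩ := sum_wt hδ0
  obtain ⟨C₁, hC₁, hexp⟩ := exp_sqrt_le (B := 2 * C₀) (ε := η / 12) (by positivity)
  refine ⟨η / 6, 3 * C₁, by positivity, by positivity, fun X hX S hS => ?_⟩
  have hX0 : 0 < X := by linarith
  have hX1 : 1 ≤ X := by linarith
  have hlX : 1 < Real.log X := by
    rw [Real.lt_log_iff_exp_lt hX0]
    exact lt_of_lt_of_le Real.exp_one_lt_d9 (by norm_num; linarith)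
  have hlX0 : 0 < Real.log X := by linarith
  set z : ℝ := √(Real.log X) with hz
  have hz0 : 0 < z := Real.sqrt_pos.2 hlX0
  set N : ℕ := ⌊X ^ A⌋₊ with hN
  have h1 := card_le (X := X) (V := X ^ (η / 2)) (z := z) hX1 (by positivity) hz0 N S
    (fun t ht => by
      obtain ⟨h1, h2, h3, h4, h5, h6⟩ := hS t ht
      refine ⟨h1, h2, h3, Nat.le_floor h4, h5, ?_⟩
      have h7 : Real.log z = Real.log (Real.log X) / 2 := by
        rw [hz, Real.log_sqrt hlX0.le]
      rw [Real.rpow_def_of_pos hX0, ← Real.exp_log hz0, ← Real.exp_nat_mul, h7]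
      apply Real.exp_le_exp.2
      linarith)
  have h2 := hsum z N hz0.le
  have hW0 : 0 ≤ ∑ m ∈ Icc 1 N, w z m := Finset.sum_nonneg fun m _ => (w_pos hz0 m).le
  have h3 : (N : ℝ) ^ δ ≤ X ^ (η / 24) := by
    calc (N : ℝ) ^ δ ≤ (X ^ A) ^ δ :=
          Real.rpow_le_rpow (Nat.cast_nonneg _) (Nat.floor_le (by positivity)) hδ0.le
      _ = X ^ (η / 24) := by
          rw [← Real.rpow_mul hX0.le, hδ]
          congr 1
          field_simp
  have h4 : (∑ m ∈ Icc 1 N, w z m) ^ 2 ≤ X ^ (η / 12) * Real.exp (2 * C₀ * z) := by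
    calc (∑ m ∈ Icc 1 N, w z m) ^ 2 ≤ (X ^ (η / 24) * Real.exp (C₀ * z)) ^ 2 := by
          apply pow_le_pow_left₀ hW0
          refine le_trans h2 ?_
          gcongr
      _ = _ := by
          rw [mul_pow, ← Real.rpow_natCast (X ^ (η / 24)), ← Real.rpow_mul hX0.le,
            ← Real.exp_nat_mul]
          congr 2
          · push_cast
            ring
          · push_cast
            ring
  have h5 : Real.exp (2 * C₀ * z) ≤ C₁ * X ^ (η / 12) := by
    have := hexp (Real.log X) hlX0.le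
    rw [Real.rpow_def_of_pos hX0, mul_comm (Real.log X)]
    exact this
  have h6 : (X / X ^ (η / 2)) ^ (2 / 3 : ℝ) = X ^ (2 / 3 - η / 3) := by
    have : X / X ^ (η / 2) = X ^ (1 - η / 2) := by
      rw [Real.rpow_sub hX0, Real.rpow_one]
    rw [this, ← Real.rpow_mul hX0.le]
    congr 1
    ring
  calc (S.card : ℝ) ≤ 3 * (X / X ^ (η / 2)) ^ (2 / 3 : ℝ) * (∑ m ∈ Icc 1 N, w z m) ^ 2 := h1
    _ ≤ 3 * X ^ (2 / 3 - η / 3) * (X ^ (η / 12) * (C₁ * X ^ (η / 12))) := by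
        rw [h6]
        refine mul_le_mul_of_nonneg_left (h4.trans ?_) (by positivity)
        gcongr
    _ = 3 * C₁ * (X ^ (2 / 3 - η / 3) * X ^ (η / 12) * X ^ (η / 12)) := by ring
    _ = 3 * C₁ * X ^ (2 / 3 - η / 6) := by
        rw [← Real.rpow_add hX0, ← Real.rpow_add hX0]
        congr 2
        ring

end Pool.Agent.X4.HC
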