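import Pool.Agent.Helper256.KM.Mertens

/-! Turán's inequality for the number of the prime divisors. -/

set_option autoImplicit false

namespace Pool.Agent.X4.HC

open Finset

/-- primes up to `N` -/
abbrev PP (N : ℕ) : Finset ℕ := (Finset.Icc 1 N).filter Nat.Prime

theorem card_primeFactors {N n : ℕ} (h1 : 1 ≤ n) (h2 : n ≤ N) :
    (n.primeFactors.card : ℝ) = ∑ p ∈ PP N, if p ∣ n then (1 : ℝ) else 0 := by
  have h3 : n.primeFactors = (PP N).filter (fun p => p ∣ n) := by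
    ext p
    rw [Nat.mem_primeFactors, mem_filter, mem_filter, mem_Icc]
    constructor
    · rintro ⟨h4, h5, h6⟩
      exact ⟨⟨⟨h4.one_lt.le, (Nat.le_of_dvd (by omega) h5).trans h2⟩, h4⟩, h5⟩
    · rintro ⟨⟨-, h4⟩, h5⟩
      exact ⟨h4, h5, by omega⟩
  rw [h3, Finset.card_filter]
  push_cast
  rfl

theorem card_mult (N d : ℕ) : (∑ n ∈ Icc 1 N, if d ∣ n then (1 : ℝ) else 0) = ((N / d : ℕ) : ℝ) := by
  rw [← Finset.sum_filter, Finset.sum_const, nsmul_eq_mul, mul_one]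
  congr 1
  have h1 : (Icc 1 N).filter (fun n => d ∣ n) = (Ioc 0 N).filter (fun n => d ∣ n) := by
    ext n
    simp only [mem_filter, mem_Icc, mem_Ioc]
    omega
  rw [h1, Nat.Ioc_filter_dvd_card_eq_div]

theorem sum_omega (N : ℕ) : ∑ n ∈ Icc 1 N, (n.primeFactors.card : ℝ) =
    ∑ p ∈ PP N, ((N / p : ℕ) : ℝ) := by
  rw [Finset.sum_congr rfl fun n hn => card_primeFactors (mem_Icc.1 hn).1 (mem_Icc.1 hn).2,
    Finset.sum_comm]
  exact Finset.sum_congr rfl fun p _ => card_mult N p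

theorem div_le (N d : ℕ) : ((N / d : ℕ) : ℝ) ≤ N * (1 / d) := by
  refine (Nat.cast_div_le).trans ?_
  rw [mul_one_div]

theorem le_div (N : ℕ) {d : ℕ} (hd : 0 < d) : N * (1 / (d : ℝ)) - 1 ≤ ((N / d : ℕ) : ℝ) := by
  have h1 : (0 : ℝ) < d := by exact_mod_cast hd
  have h2 := Nat.lt_div_mul_add (a := N) hd
  have h3 : (N : ℝ) < ((N / d : ℕ) : ℝ) * d + d := by exact_mod_cast h2
  rw [mul_one_div, sub_le_iff_le_add, div_le_iff₀ h1]
  linarith

theorem sum_omega_sq (N : ℕ) : ∑ n ∈ Icc 1 N, (n.primeFactors.card : ℝ) ^ 2 ≤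
    N * ((∑ p ∈ PP N, (1 : ℝ) / p) ^ 2 + ∑ p ∈ PP N, (1 : ℝ) / p) := by
  have h1 : ∑ n ∈ Icc 1 N, (n.primeFactors.card : ℝ) ^ 2 =
      ∑ p ∈ PP N, ∑ q ∈ PP N, ∑ n ∈ Icc 1 N,
        (if p ∣ n then (1 : ℝ) else 0) * (if q ∣ n then (1 : ℝ) else 0) := by
    rw [Finset.sum_congr rfl fun n hn => by
      rw [card_primeFactors (mem_Icc.1 hn).1 (mem_Icc.1 hn).2, sq, Finset.sum_mul_sum]]
    rw [Finset.sum_comm]
    refine Finset.sum_congr rfl fun p _ => ?_
    rw [Finset.sum_comm]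
  rw [h1]
  have h2 : ∀ p ∈ PP N, ∀ q ∈ PP N, ∑ n ∈ Icc 1 N,
      (if p ∣ n then (1 : ℝ) else 0) * (if q ∣ n then (1 : ℝ) else 0) ≤
      N * (1 / p * (1 / q)) + if p = q then N * (1 / (p : ℝ)) else 0 := by
    intro p hp q hq
    rw [mem_filter] at hp hq
    have hp0 : (0 : ℝ) < p := by exact_mod_cast hp.2.pos
    have hq0 : (0 : ℝ) < q := by exact_mod_cast hq.2.pos
    by_cases hpq : p = q
    · subst hpq
      rw [if_pos rfl]
      have h3 : ∀ n : ℕ, (if p ∣ n then (1 : ℝ) else 0) * (if p ∣ n then (1 : ℝ) else 0) =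
          if p ∣ n then (1 : ℝ) else 0 := by
        intro n
        split_ifs <;> simp
      simp_rw [h3]
      rw [card_mult]
      refine (div_le N p).trans ?_
      have : 0 ≤ (N : ℝ) * (1 / p * (1 / p)) := by positivity
      linarith
    · rw [if_neg hpq, add_zero]
      have h3 : ∀ n : ℕ, (if p ∣ n then (1 : ℝ) else 0) * (if q ∣ n then (1 : ℝ) else 0) =
          if p * q ∣ n then (1 : ℝ) else 0 := by
        intro n
        have h4 : p * q ∣ n ↔ p ∣ n ∧ q ∣ n := by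
          constructor
          · intro h
            exact ⟨(Dvd.intro _ rfl).trans h, (Dvd.intro_left _ rfl).trans h⟩
          · rintro ⟨h5, h6⟩
            exact Nat.Coprime.mul_dvd_of_dvd_of_dvd ((Nat.coprime_primes hp.2 hq.2).2 hpq) h5 h6
        by_cases h5 : p ∣ n <;> by_cases h6 : q ∣ n <;> simp [h4, h5, h6]
      simp_rw [h3]
      rw [card_mult]
      refine (div_le N (p * q)).trans (le_of_eq ?_)
      push_cast
      rw [one_div_mul_one_div]
  calc ∑ p ∈ PP N, ∑ q ∈ PP N, ∑ n ∈ Icc 1 N,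
        (if p ∣ n then (1 : ℝ) else 0) * (if q ∣ n then (1 : ℝ) else 0)
      ≤ ∑ p ∈ PP N, ∑ q ∈ PP N, ((N : ℝ) * (1 / p * (1 / q)) + if p = q then N * (1 / (p : ℝ)) else 0) :=
        Finset.sum_le_sum fun p hp => Finset.sum_le_sum fun q hq => h2 p hp q hq
    _ = N * ((∑ p ∈ PP N, (1 : ℝ) / p) ^ 2 + ∑ p ∈ PP N, (1 : ℝ) / p) := by
        rw [mul_add, sq, Finset.sum_mul_sum, Finset.mul_sum, Finset.mul_sum, ← Finset.sum_add_distrib]
        refine Finset.sum_congr rfl fun p hp => ?_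
        rw [Finset.sum_add_distrib, ← Finset.mul_sum, Finset.sum_ite_eq, if_pos hp]

/-- **Turán's inequality.** -/
theorem turan : ∃ C : ℝ, 0 < C ∧ ∀ N : ℕ, 16 ≤ N →
    ∑ n ∈ Icc 1 N, ((n.primeFactors.card : ℝ) - Real.log (Real.log N)) ^ 2 ≤
      C * N * Real.log (Real.log N) := by
  obtain ⟨C, hC⟩ := Pool.Agent.Helper256.KM.mertens_inv
  have hC0 : 0 ≤ C := (abs_nonneg _).trans (hC 3 le_rfl)
  refine ⟨C ^ 2 + C + 3, by positivity, fun N hN => ?_⟩
  set L : ℝ := Real.log (Real.log N) with hL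
  have hN16 : (16 : ℝ) ≤ N := by exact_mod_cast hN
  have hL1 : 1 ≤ L := by
    have h1 : Real.exp 1 ≤ Real.log N := by
      have h2 : Real.log 16 ≤ Real.log N := Real.log_le_log (by norm_num) hN16
      have h3 : Real.log 16 = 4 * Real.log 2 := by
        rw [show (16 : ℝ) = 2 ^ 4 by norm_num, Real.log_pow]
        norm_num
      have h4 := Real.log_two_gt_d9
      have h5 := Real.exp_one_lt_d9
      linarith
    have h2 : 0 < Real.log N := lt_of_lt_of_le (Real.exp_pos 1) h1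
    rw [hL, Real.le_log_iff_exp_le h2]
    exact h1
  set S : ℝ := ∑ p ∈ PP N, (1 : ℝ) / p with hS
  have hSL : |S - L| ≤ C := hC N (by omega)
  have h1 := sum_omega_sq N
  have h2 : (N : ℝ) * S - N ≤ ∑ n ∈ Icc 1 N, (n.primeFactors.card : ℝ) := by
    rw [sum_omega]
    have h3 : ∑ p ∈ PP N, ((N : ℝ) * (1 / p) - 1) ≤ ∑ p ∈ PP N, ((N / p : ℕ) : ℝ) :=
      Finset.sum_le_sum fun p hp => le_div N (mem_filter.1 hp).2.pos
    have h4 : ((PP N).card : ℝ) ≤ N := by
      have := Finset.card_filter_le (Finset.Icc 1 N) Nat.Prime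
      rw [Nat.card_Icc] at this
      exact_mod_cast this
    rw [Finset.sum_sub_distrib, ← Finset.mul_sum, Finset.sum_const, nsmul_eq_mul, mul_one] at h3
    linarith
  have h3 : ∑ n ∈ Icc 1 N, ((n.primeFactors.card : ℝ) - L) ^ 2 =
      ∑ n ∈ Icc 1 N, (n.primeFactors.card : ℝ) ^ 2 -
        2 * L * ∑ n ∈ Icc 1 N, (n.primeFactors.card : ℝ) + N * L ^ 2 := by
    have : ∀ n ∈ Icc 1 N, ((n.primeFactors.card : ℝ) - L) ^ 2 =
        (n.primeFactors.card : ℝ) ^ 2 - 2 * L * (n.primeFactors.card : ℝ) + L ^ 2 := by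
      intro n _
      ring
    rw [Finset.sum_congr rfl this, Finset.sum_add_distrib, Finset.sum_sub_distrib,
      ← Finset.mul_sum, Finset.sum_const, Nat.card_Icc, nsmul_eq_mul]
    simp
  rw [h3]
  have h4 : (S - L) ^ 2 ≤ C ^ 2 := by
    rw [← sq_abs (S - L)]
    exact pow_le_pow_left₀ (abs_nonneg _) hSL 2
  have h5 : S ≤ L + C := by
    have := (abs_le.1 hSL).2
    linarith
  have hN0 : (0 : ℝ) < N := by linarith
  have h6 : (N : ℝ) * (S ^ 2 + S) - 2 * L * (N * S - N) + N * L ^ 2 =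
      N * ((S - L) ^ 2 + S + 2 * L) := by ring
  have h7 : 2 * L * (N * S - N) ≤ 2 * L * ∑ n ∈ Icc 1 N, (n.primeFactors.card : ℝ) :=
    mul_le_mul_of_nonneg_left h2 (by linarith)
  have h8 : (S - L) ^ 2 + S + 2 * L ≤ (C ^ 2 + C + 3) * L := by nlinarith
  calc _ ≤ (N : ℝ) * (S ^ 2 + S) - 2 * L * (N * S - N) + N * L ^ 2 := by linarith
    _ = N * ((S - L) ^ 2 + S + 2 * L) := h6
    _ ≤ N * ((C ^ 2 + C + 3) * L) := mul_le_mul_of_nonneg_left h8 hN0.le
    _ = _ := by ring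

/-- the number of the `n ≤ N` whose number of prime divisors is not normal -/
theorem normal : ∃ C : ℝ, 0 < C ∧ ∀ (N : ℕ) (δ : ℝ), 16 ≤ N → 0 < δ →
    (((Icc 1 N).filter (fun n => δ * Real.log (Real.log N) <
      |(n.primeFactors.card : ℝ) - Real.log (Real.log N)|)).card : ℝ) ≤
      C * N / (δ ^ 2 * Real.log (Real.log N)) := by
  obtain ⟨C, hC0, hC⟩ := turan
  refine ⟨C, hC0, fun N δ hN hδ => ?_⟩
  have h1 := hC N hN
  set L : ℝ := Real.log (Real.log N) with hL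
  have hN16 : (16 : ℝ) ≤ N := by exact_mod_cast hN
  have hL1 : 0 < L := by
    have h1 : Real.exp 1 ≤ Real.log N := by
      have h2 : Real.log 16 ≤ Real.log N := Real.log_le_log (by norm_num) hN16
      have h3 : Real.log 16 = 4 * Real.log 2 := by
        rw [show (16 : ℝ) = 2 ^ 4 by norm_num, Real.log_pow]
        norm_num
      have h4 := Real.log_two_gt_d9
      have h5 := Real.exp_one_lt_d9
      linarith
    rw [hL]
    apply Real.log_pos
    exact lt_of_lt_of_le (Real.one_lt_exp_iff.2 one_pos) h1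
  set F := (Icc 1 N).filter (fun n => δ * L < |(n.primeFactors.card : ℝ) - L|) with hF
  have h2 : (F.card : ℝ) * (δ * L) ^ 2 ≤ C * N * L := by
    calc (F.card : ℝ) * (δ * L) ^ 2 = ∑ n ∈ F, (δ * L) ^ 2 := by
          rw [Finset.sum_const, nsmul_eq_mul]
      _ ≤ ∑ n ∈ F, ((n.primeFactors.card : ℝ) - L) ^ 2 := by
          refine Finset.sum_le_sum fun n hn => ?_
          rw [hF, mem_filter] at hn
          rw [← sq_abs ((n.primeFactors.card : ℝ) - L)]
          exact pow_le_pow_left₀ (by positivity) hn.2.le 2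
      _ ≤ ∑ n ∈ Icc 1 N, ((n.primeFactors.card : ℝ) - L) ^ 2 :=
          Finset.sum_le_sum_of_subset_of_nonneg (Finset.filter_subset _ _)
            fun _ _ _ => sq_nonneg _
      _ ≤ _ := h1
  rw [le_div_iff₀ (by positivity)]
  have h3 : (F.card : ℝ) * (δ ^ 2 * L) * L ≤ C * N * L := by
    calc (F.card : ℝ) * (δ ^ 2 * L) * L = (F.card : ℝ) * (δ * L) ^ 2 := by ring
      _ ≤ _ := h2
  exact le_of_mul_le_mul_right h3 hL1

end Pool.Agent.X4.HC
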