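import Mathlib

/-! Sums of `z ^ ω(m) / rad(m)` over `m ≤ M` and the number of abc triples with many prime
factors. -/

set_option autoImplicit false

namespace Pool.Agent.X4.HC

open Finset

/-- the radical -/
def rad (n : ℕ) : ℕ := ∏ p ∈ n.primeFactors, p

theorem rad_pos (n : ℕ) : 0 < rad n :=
  Finset.prod_pos fun p hp => (Nat.prime_of_mem_primeFactors hp).pos

/-- the weight `z ^ ω(m) / (rad(m) m ^ δ)` -/
noncomputable def wt (z δ : ℝ) (m : ℕ) : ℝ :=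
  if m = 0 then 0 else z ^ m.primeFactors.card / ((rad m : ℝ) * (m : ℝ) ^ δ)

theorem wt_one (z δ : ℝ) : wt z δ 1 = 1 := by
  simp [wt, rad]

theorem wt_nonneg {z : ℝ} (hz : 0 ≤ z) (δ : ℝ) (m : ℕ) : 0 ≤ wt z δ m := by
  unfold wt
  split_ifs
  · exact le_rfl
  · positivity

theorem wt_mul (z δ : ℝ) {m n : ℕ} (h : Nat.Coprime m n) :
    wt z δ (m * n) = wt z δ m * wt z δ n := by
  unfold wt
  rcases Nat.eq_zero_or_pos m with rfl | hm
  · simp
  rcases Nat.eq_zero_or_pos n with rfl | hn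
  · simp
  rw [if_neg (by positivity), if_neg hm.ne', if_neg hn.ne']
  have h1 : (m * n).primeFactors.card = m.primeFactors.card + n.primeFactors.card := by
    rw [h.primeFactors_mul, Finset.card_union_of_disjoint h.disjoint_primeFactors]
  have h2 : rad (m * n) = rad m * rad n := by
    unfold rad
    rw [h.primeFactors_mul, Finset.prod_union h.disjoint_primeFactors]
  rw [h1, h2, pow_add]
  push_cast
  rw [Real.mul_rpow (Nat.cast_nonneg _) (Nat.cast_nonneg _)]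
  have h3 : (0 : ℝ) < rad m := by exact_mod_cast rad_pos m
  have h4 : (0 : ℝ) < rad n := by exact_mod_cast rad_pos n
  have h5 : (0 : ℝ) < (m : ℝ) ^ δ := by positivity
  have h6 : (0 : ℝ) < (n : ℝ) ^ δ := by positivity
  field_simp

theorem wt_prime_pow (z δ : ℝ) {p : ℕ} (hp : p.Prime) (n : ℕ) :
    wt z δ (p ^ (n + 1)) = z / p * ((p : ℝ) ^ (-δ)) ^ (n + 1) := by
  unfold wt
  have hp0 : (0 : ℝ) < p := by exact_mod_cast hp.pos
  rw [if_neg (by have := hp.pos; positivity)]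
  have h1 : (p ^ (n + 1)).primeFactors = {p} := Nat.primeFactors_prime_pow (by omega) hp
  unfold rad
  rw [h1, Finset.card_singleton, Finset.prod_singleton, pow_one]
  push_cast
  rw [← Real.rpow_natCast ((p : ℝ) ^ (-δ)), ← Real.rpow_mul hp0.le, ← Real.rpow_natCast (p : ℝ),
    ← Real.rpow_mul hp0.le]
  rw [show -δ * ((n + 1 : ℕ) : ℝ) = -(((n + 1 : ℕ) : ℝ) * δ) by ring, Real.rpow_neg hp0.le]
  have : (0 : ℝ) < (p : ℝ) ^ (((n + 1 : ℕ) : ℝ) * δ) := by positivity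
  field_simp

/-- the Euler factor -/
theorem tsum_wt {z δ : ℝ} (hz : 0 ≤ z) (hδ : 0 < δ) {p : ℕ} (hp : p.Prime) :
    Summable (fun n : ℕ => wt z δ (p ^ n)) ∧
      ∑' n : ℕ, wt z δ (p ^ n) ≤ Real.exp (z * ((1 - (2 : ℝ) ^ (-δ))⁻¹ * (p : ℝ) ^ (-(1 + δ)))) := by
  have hp0 : (0 : ℝ) < p := by exact_mod_cast hp.pos
  have hp2 : (2 : ℝ) ≤ p := by exact_mod_cast hp.two_le
  obtain ⟨r, hr⟩ : ∃ r : ℝ, r = (p : ℝ) ^ (-δ) := ⟨_, rfl⟩
  have hr0 : 0 < r := by rw [hr]; positivity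
  have hr2 : r ≤ (2 : ℝ) ^ (-δ) := by
    rw [hr]
    exact Real.rpow_le_rpow_of_nonpos (by norm_num) hp2 (by linarith)
  have h21 : (2 : ℝ) ^ (-δ) < 1 := Real.rpow_lt_one_of_one_lt_of_neg (by norm_num) (by linarith)
  have hr1 : r < 1 := hr2.trans_lt h21
  have hf : ∀ n : ℕ, wt z δ (p ^ (n + 1)) = z / p * r * r ^ n := by
    intro n
    rw [wt_prime_pow z δ hp, ← hr, pow_succ]
    ring
  have hg : HasSum (fun n : ℕ => wt z δ (p ^ (n + 1))) (z / p * r * (1 - r)⁻¹) := by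
    rw [show (fun n : ℕ => wt z δ (p ^ (n + 1))) = fun n : ℕ => z / p * r * r ^ n from
      funext hf]
    exact (hasSum_geometric_of_lt_one hr0.le hr1).mul_left _
  have hg2 : HasSum (fun n : ℕ => wt z δ (p ^ n)) (z / p * r * (1 - r)⁻¹ + 1) := by
    have := (hasSum_nat_add_iff (f := fun n : ℕ => wt z δ (p ^ n)) 1).1 hg
    rw [Finset.sum_range_one, pow_zero, wt_one] at this
    exact this
  refine ⟨hg2.summable, ?_⟩
  rw [hg2.tsum_eq]
  have h3 : (p : ℝ) ^ (-(1 + δ)) = r / p := by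
    rw [hr, show -(1 + δ) = -δ - 1 by ring, Real.rpow_sub hp0, Real.rpow_one]
  rw [h3]
  have h4 : (1 - r)⁻¹ ≤ (1 - (2 : ℝ) ^ (-δ))⁻¹ := by
    apply inv_anti₀
    · linarith
    · linarith
  have h2 : z / p * r * (1 - r)⁻¹ ≤ z * ((1 - (2 : ℝ) ^ (-δ))⁻¹ * (r / p)) := by
    have h5 : z / p * r * (1 - r)⁻¹ = z * ((1 - r)⁻¹ * (r / p)) := by ring
    rw [h5]
    exact mul_le_mul_of_nonneg_left (mul_le_mul_of_nonneg_right h4 (by positivity)) hz
  calc z / p * r * (1 - r)⁻¹ + 1 ≤ z * ((1 - (2 : ℝ) ^ (-δ))⁻¹ * (r / p)) + 1 := by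
        linarith
    _ ≤ _ := Real.add_one_le_exp _

/-- `∑_{m ≤ M} z ^ ω(m) / rad(m) ≤ M ^ δ e ^ (C z)` -/
theorem sum_wt {δ : ℝ} (hδ : 0 < δ) : ∃ C : ℝ, 0 < C ∧ ∀ (z : ℝ) (M : ℕ), 0 ≤ z →
    ∑ m ∈ Icc 1 M, z ^ m.primeFactors.card / (rad m : ℝ) ≤ (M : ℝ) ^ δ * Real.exp (C * z) := by
  have hsum : Summable (fun n : ℕ => (n : ℝ) ^ (-(1 + δ))) :=
    Real.summable_nat_rpow.2 (by linarith)
  have h21 : (2 : ℝ) ^ (-δ) < 1 := Real.rpow_lt_one_of_one_lt_of_neg (by norm_num) (by linarith)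
  set c : ℝ := (1 - (2 : ℝ) ^ (-δ))⁻¹ with hc
  have hc0 : 0 < c := inv_pos.2 (by linarith)
  set S : ℝ := ∑' n : ℕ, (n : ℝ) ^ (-(1 + δ)) with hS
  have hS0 : 0 ≤ S := tsum_nonneg fun n => by positivity
  refine ⟨c * S + 1, by positivity, fun z M hz => ?_⟩
  have h1 : ∀ m ∈ Icc 1 M, z ^ m.primeFactors.card / (rad m : ℝ) ≤ (M : ℝ) ^ δ * wt z δ m := by
    intro m hm
    rw [mem_Icc] at hm
    have hm0 : (0 : ℝ) < m := by exact_mod_cast hm.1
    have hr : (0 : ℝ) < rad m := by exact_mod_cast rad_pos m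
    unfold wt
    rw [if_neg (by omega)]
    have h2 : (m : ℝ) ^ δ ≤ (M : ℝ) ^ δ :=
      Real.rpow_le_rpow hm0.le (by exact_mod_cast hm.2) hδ.le
    have h3 : (0 : ℝ) < (m : ℝ) ^ δ := by positivity
    calc z ^ m.primeFactors.card / (rad m : ℝ)
        = (m : ℝ) ^ δ * (z ^ m.primeFactors.card / ((rad m : ℝ) * (m : ℝ) ^ δ)) := by
          field_simp
      _ ≤ _ := by gcongr
  refine (Finset.sum_le_sum h1).trans ?_
  rw [← Finset.mul_sum]
  refine mul_le_mul_of_nonneg_left ?_ (by positivity)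
  obtain ⟨hE1, hE2⟩ := EulerProduct.summable_and_hasSum_smoothNumbers_prod_primesBelow_tsum
    (f := wt z δ) (wt_one z δ) (fun {m n} h => wt_mul z δ h)
    (fun {p} hp => by
      have := (tsum_wt hz hδ hp).1
      refine this.congr fun n => ?_
      rw [Real.norm_of_nonneg (wt_nonneg hz δ _)]) (M + 1)
  have h4 : ∑ m ∈ Icc 1 M, wt z δ m ≤
      ∏ p ∈ (M + 1).primesBelow, ∑' n : ℕ, wt z δ (p ^ n) := by
    have h5 : ∀ m ∈ Icc 1 M, m ∈ (M + 1).smoothNumbers := by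
      intro m hm
      rw [mem_Icc] at hm
      exact Nat.mem_smoothNumbers_of_lt (by omega) (by omega)
    have h6 : ∑ m ∈ Icc 1 M, wt z δ m =
        ∑ x ∈ (Icc 1 M).subtype (fun m => m ∈ (M + 1).smoothNumbers), wt z δ (x : ℕ) := by
      rw [Finset.sum_subtype_of_mem (f := wt z δ) h5]
    rw [h6]
    exact sum_le_hasSum _ (fun x _ => wt_nonneg hz δ _) hE2
  refine h4.trans ?_
  calc ∏ p ∈ (M + 1).primesBelow, ∑' n : ℕ, wt z δ (p ^ n)
      ≤ ∏ p ∈ (M + 1).primesBelow, Real.exp (z * (c * (p : ℝ) ^ (-(1 + δ)))) := by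
        refine Finset.prod_le_prod (fun p hp => tsum_nonneg fun n => wt_nonneg hz δ _) ?_
        intro p hp
        exact (tsum_wt hz hδ (Nat.prime_of_mem_primesBelow hp)).2
    _ = Real.exp (z * (c * ∑ p ∈ (M + 1).primesBelow, (p : ℝ) ^ (-(1 + δ)))) := by
        rw [← Real.exp_sum, Finset.mul_sum, Finset.mul_sum]
    _ ≤ Real.exp ((c * S + 1) * z) := by
        apply Real.exp_le_exp.2
        have h7 : ∑ p ∈ (M + 1).primesBelow, (p : ℝ) ^ (-(1 + δ)) ≤ S :=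
          hsum.sum_le_tsum _ (fun n _ => by positivity)
        have h8 : c * ∑ p ∈ (M + 1).primesBelow, (p : ℝ) ^ (-(1 + δ)) ≤ c * S := by gcongr
        nlinarith

end Pool.Agent.X4.HC
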